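import Pool.Agent.FermatZ.Defs
import Pool.Agent.DCI57.At

/-!
# Values of functions and of morphisms to projective space
-/

set_option autoImplicit false

open scoped LinearAlgebra.Projectivization
open Polynomial

namespace Pool.Agent.FermatZ

open Pool.Agent.ZCyc

universe u w

variable {k : Type u} [Field k] {ι : Type} [Fintype ι]

/-- Functions defined at a point have a value. -/
theorem exists_value [IsAlgClosed k] {F : Type u} [Field F] [Algebra k F] [Algebra (RatFunc k) F]
    [IsScalarTower k (RatFunc k) F] [FiniteDimensional (RatFunc k) F] (v : Place k F) {f : F}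
    (hf : f ∈ v.ring) : ∃ c : k, v.At f c := by
  have : Algebra.IsAlgebraic (RatFunc k) F := Algebra.IsAlgebraic.of_finite _ _
  exact Pool.Agent.DCI57.exists_at v hf

theorem isValue_mk {F : Type u} [Field F] [Algebra k F] {v : Place k F} {x : ι → F} {p : ι → k}
    (hp : p ≠ 0) {c : F} (h : ∀ i, v.At (c * x i) (p i)) :
    IsValue v x (Projectivization.mk k p hp) := by
  obtain ⟨a, ha⟩ := Projectivization.exists_smul_eq_mk_rep k p hp
  refine ⟨algebraMap k F a * c, fun i => ?_⟩
  rw [← ha, mul_assoc]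
  exact (Place.at_const (a : k)).mul (h i)

theorem exists_isValue [IsAlgClosed k] {F : Type u} [Field F] [Algebra k F] [Algebra (RatFunc k) F]
    [IsScalarTower k (RatFunc k) F] [FiniteDimensional (RatFunc k) F] (v : Place k F) {x : ι → F}
    (hx : x ≠ 0) : ∃ P, IsValue v x P := by
  obtain ⟨i₁, hi₁⟩ := Function.ne_iff.1 hx
  obtain ⟨i₀, -, hmax⟩ := Finset.exists_max_image Finset.univ (fun i => v.ring.valuation (x i))
    ⟨i₁, Finset.mem_univ _⟩
  have hx0 : x i₀ ≠ 0 := by
    intro h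
    have h1 := hmax i₁ (Finset.mem_univ _)
    rw [h, _root_.map_zero, le_zero_iff, Valuation.zero_iff] at h1
    exact hi₁ h1
  have hmem : ∀ i, (x i₀)⁻¹ * x i ∈ v.ring := by
    intro i
    rw [← v.ring.valuation_le_one_iff, _root_.map_mul, map_inv₀]
    have hne : v.ring.valuation (x i₀) ≠ 0 := by
      rw [Valuation.ne_zero_iff]
      exact hx0
    rw [inv_mul_le_iff₀ (zero_lt_iff.2 hne), mul_one]
    exact hmax i (Finset.mem_univ _)
  choose p hp using fun i => exists_value v (hmem i)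
  have hp0 : p i₀ = 1 := by
    have h1 := hp i₀
    rw [inv_mul_cancel₀ hx0] at h1
    have h2 := Place.at_const (v := v) (1 : k)
    rw [_root_.map_one] at h2
    exact h1.unique h2
  have hpne : p ≠ 0 := by
    intro h
    rw [h] at hp0
    exact zero_ne_one hp0
  exact ⟨_, isValue_mk hpne hp⟩

theorem IsValue.unique {F : Type u} [Field F] [Algebra k F] {v : Place k F} {x : ι → F}
    {P Q : ℙ k (ι → k)} (hP : IsValue v x P) (hQ : IsValue v x Q) : P = Q := by
  obtain ⟨c, hc⟩ := hP
  obtain ⟨c', hc'⟩ := hQ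
  obtain ⟨i₀, hi₀⟩ := Function.ne_iff.1 P.rep_nonzero
  have hi₀' : P.rep i₀ ≠ 0 := hi₀
  have hne : c * x i₀ ≠ 0 := by
    intro h
    have h1 := hc i₀
    rw [h] at h1
    have h2 := Place.at_const (v := v) (0 : k)
    rw [_root_.map_zero] at h2
    exact hi₀' (h1.unique h2)
  have hc0 : c ≠ 0 := left_ne_zero_of_mul hne
  have hx0 : x i₀ ≠ 0 := right_ne_zero_of_mul hne
  have hr : v.At (c' / c) (Q.rep i₀ / P.rep i₀) := by
    have h1 := (hc' i₀).div (hc i₀) hi₀'
    rwa [mul_div_mul_right _ _ hx0] at h1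
  have hall : ∀ i, Q.rep i = Q.rep i₀ / P.rep i₀ * P.rep i := by
    intro i
    have h1 := hr.mul (hc i)
    rw [← mul_assoc, div_mul_cancel₀ _ hc0] at h1
    exact (hc' i).unique h1
  have hvec : Q.rep = (Q.rep i₀ / P.rep i₀) • P.rep := funext hall
  rw [← P.mk_rep, ← Q.mk_rep, eq_comm, Projectivization.mk_eq_mk_iff']
  exact ⟨_, hvec.symm⟩

/-- The cycles which come from a curve on the Fermat hypersurface. -/
theorem cycle_mem [IsAlgClosed k] (R : Type w) [Field R] {d : ℕ} {F : Type u} [Field F]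
    [Algebra k F] [Algebra (RatFunc k) F] [IsScalarTower k (RatFunc k) F]
    [FiniteDimensional (RatFunc k) F] [IsGalois (RatFunc k) F] (x : ι → F)
    (hx : ∑ i, x i ^ d = 0) (a b : k) (v w : Place k F)
    (hv : v.Vanishes (algebraMap (RatFunc k) F (RatFunc.X - RatFunc.C a)))
    (hw : w.Vanishes (algebraMap (RatFunc k) F (RatFunc.X - RatFunc.C b)))
    (p q : (F ≃ₐ[RatFunc k] F) → ι → k)
    (hp : ∀ τ, p τ ≠ 0 ∧ ∃ c : F, ∀ i, (v.map (τ.restrictScalars k)).At (c * x i) (p τ i))
    (hq : ∀ τ, q τ ≠ 0 ∧ ∃ c : F, ∀ i, (w.map (τ.restrictScalars k)).At (c * x i) (q τ i)) :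
    ∑ τ : F ≃ₐ[RatFunc k] F, (cyc R (p τ) - cyc R (q τ)) ∈ ratEquiv (fermat k ι d) R := by
  have hx0 : x ≠ 0 := by
    intro h
    obtain ⟨h1, c, hc⟩ := hp 1
    apply h1
    funext i
    have h2 := hc i
    rw [h, Pi.zero_apply, mul_zero] at h2
    have h3 := Place.at_const (v := v.map ((1 : F ≃ₐ[RatFunc k] F).restrictScalars k)) (0 : k)
    rw [_root_.map_zero] at h3
    exact h2.unique h3
  choose φ hφ using fun v' : Place k F => exists_isValue v' hx0
  have hmem : ∀ v', φ v' ∈ fermat k ι d := by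
    intro v'
    obtain ⟨c, hc⟩ := hφ v'
    have h1 : v'.At (∑ i, (c * x i) ^ d) (∑ i, (φ v').rep i ^ d) :=
      Place.At.sum fun i _ => (hc i).pow d
    have h2 : ∑ i, (c * x i) ^ d = 0 := by
      simp only [mul_pow]
      rw [← Finset.mul_sum, hx, mul_zero]
    rw [h2] at h1
    have h3 := Place.at_const (v := v') (0 : k)
    rw [_root_.map_zero] at h3
    exact h1.unique h3
  have hval : ∀ (v' : Place k F) (r : ι → k), (r ≠ 0 ∧ ∃ c : F, ∀ i, v'.At (c * x i) (r i)) →
      cyc R r = Finsupp.single (φ v') 1 := by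
    rintro v' r ⟨hr, c, hc⟩
    unfold cyc
    rw [dif_pos hr, (isValue_mk hr hc).unique (hφ v')]
  refine Submodule.subset_span ⟨F, inferInstance, inferInstance, inferInstance, inferInstance,
    inferInstance, inferInstance, x, φ, fun v' => ⟨hmem v', hφ v'⟩, a, b, v, w, hv, hw, ?_⟩
  refine Finset.sum_congr rfl fun τ _ => ?_
  rw [hval _ _ (hp τ), hval _ _ (hq τ)]

end Pool.Agent.FermatZ
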