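import Pool.Agent.ZCyc.Basic

/-!
# Zero-cycles on projective varieties: definitions

Let `k` be an algebraically closed field of characteristic `0`. A smooth projective curve `D` over
`k` is given by its function field `F`, and its points are the places of `F / k`
(`Pool.Agent.ZCyc.Place`). A morphism from `D` to projective space is given by a vector
`x ≠ 0` of homogeneous coordinates in `F`; its value at a point `v` of `D` is obtained by
multiplying `x` by a function `c` such that all `c * x i` are defined at `v`, not all of them
vanishing, and taking their values (`IsValue`).

The zero-cycles (with coefficients in a field `R` of characteristic zero) on a projective variety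
`X` which are rationally equivalent to zero are the span `ratEquiv X R` of the cycles
`φ_* (π^* a - π^* b)`, where `π : D → ℙ¹` is a finite Galois covering of smooth projective curves,
`a` and `b` are points of `ℙ¹` (`≠ ∞`) and `φ` is a morphism from `D` to `X`. If `v` is a point of
`D` above `a`, then `π^* a` is the sum of the points `τ v` for all `τ` in the Galois group. (Every
function on a curve is dominated by a Galois covering, so this is rational equivalence with
coefficients in `R`.)
-/

open scoped LinearAlgebra.Projectivization

namespace Pool.Agent.FermatZ

open Pool.Agent.ZCyc

universe u w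

variable {k : Type u} [Field k] {ι : Type} [Fintype ι]

/-- `P` is the value at the point `v`, of the curve with function field `F`, of the morphism to
projective space with homogeneous coordinates `x i` in `F`. -/
def IsValue {F : Type u} [Field F] [Algebra k F] (v : Place k F) (x : ι → F)
    (P : ℙ k (ι → k)) : Prop :=
  ∃ c : F, ∀ i, v.At (c * x i) (P.rep i)

/-- The zero-cycles on the projective variety `X` (with coefficients in `R`) which are rationally
equivalent to zero on `X`: the span of the cycles `φ_* (∑ τ, τ v) - φ_* (∑ τ, τ w)` for all finite
Galois coverings of the projective line, given by extensions `F` of `k(X)`, all points `v` and `w`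
of `F` above points `a` and `b` of the line, and all morphisms `φ` to `X`, given by homogeneous
coordinates `x`; the sums are over all `τ` in the Galois group. -/
noncomputable def ratEquiv (X : Set (ℙ k (ι → k))) (R : Type w) [Field R] :
    Submodule R (ℙ k (ι → k) →₀ R) :=
  Submodule.span R {z | ∃ (F : Type u) (_ : Field F) (_ : Algebra k F) (_ : Algebra (RatFunc k) F)
    (_ : IsScalarTower k (RatFunc k) F) (_ : FiniteDimensional (RatFunc k) F)
    (_ : IsGalois (RatFunc k) F) (x : ι → F) (φ : Place k F → ℙ k (ι → k))
    (_ : ∀ v, φ v ∈ X ∧ IsValue v x (φ v)) (a b : k) (v w : Place k F)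
    (_ : v.Vanishes (algebraMap (RatFunc k) F (RatFunc.X - RatFunc.C a)))
    (_ : w.Vanishes (algebraMap (RatFunc k) F (RatFunc.X - RatFunc.C b))),
    z = ∑ τ : F ≃ₐ[RatFunc k] F, (Finsupp.single (φ (v.map (τ.restrictScalars k))) 1 -
      Finsupp.single (φ (w.map (τ.restrictScalars k))) 1)}

variable (k) in
/-- The Fermat hypersurface of degree `d`. -/
def fermat (ι : Type) [Fintype ι] (d : ℕ) : Set (ℙ k (ι → k)) :=
  {P | ∑ i, P.rep i ^ d = 0}

/-! ### Auxiliary definitions for the proof -/

section Aux

variable (R : Type w) [Field R]

open scoped Classical in
/-- the zero-cycle of a vector (`0` for the zero vector) -/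
noncomputable def cyc (x : ι → k) : ℙ k (ι → k) →₀ R :=
  if h : x ≠ 0 then Finsupp.single (Projectivization.mk k x h) 1 else 0

/-- multiply the coordinates in `S` by `c` -/
def scal [DecidableEq ι] (S : Finset ι) (c : k) (x : ι → k) : ι → k :=
  fun i => if i ∈ S then c * x i else x i

end Aux

end Pool.Agent.FermatZ
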